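import Mathlib
import Pool.Agent.H27.RC.Stmts

/-!
Module URP of the project RC: a continuous Rokhlin tower with small remainder (power diagram).
-/

open scoped ENNReal NNReal
open Filter Topology

noncomputable section

namespace Pool.Agent.H68.RC

open Pool.Agent.H27.RC

/-! ## The power diagram of a sequence of weights -/

/-- The power function. -/
def pf (w : ℤ → ℝ) (R : ℕ) (t u : ℤ) : ℝ := ((u : ℝ) - t) ^ 2 + ((R : ℝ) ^ 2 + 1) * (1 - w t)

/-- `t` is a minimiser at `u`. -/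
def Own (w : ℤ → ℝ) (R : ℕ) (t u : ℤ) : Prop := ∀ s, pf w R t u ≤ pf w R s u

lemma pf_le_near {w : ℤ → ℝ} {R : ℕ} (hw1 : ∀ t, w t ≤ 1) {t u : ℤ}
    (h : pf w R t u ≤ (R : ℝ) ^ 2) : |u - t| ≤ R := by
  by_contra hc
  push Not at hc
  have h1 : ((R : ℝ) + 1) ≤ |(u : ℝ) - t| := by
    have : (R : ℤ) + 1 ≤ |u - t| := hc
    exact_mod_cast this
  have h2 : ((R : ℝ) + 1) ^ 2 ≤ ((u : ℝ) - t) ^ 2 := by
    rw [← sq_abs ((u : ℝ) - t)]
    exact pow_le_pow_left₀ (by positivity) h1 2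
  have h3 : 0 ≤ ((R : ℝ) ^ 2 + 1) * (1 - w t) :=
    mul_nonneg (by positivity) (by linarith [hw1 t])
  have h4 : (0 : ℝ) ≤ R := Nat.cast_nonneg R
  unfold pf at h
  nlinarith

lemma pf_le_ne {w : ℤ → ℝ} {R : ℕ} {t u : ℤ}
    (h : pf w R t u ≤ (R : ℝ) ^ 2) : w t ≠ 0 := by
  intro h0
  unfold pf at h
  rw [h0] at h
  nlinarith [sq_nonneg ((u : ℝ) - t)]

lemma pf_marker {w : ℤ → ℝ} {R : ℕ} {s u : ℤ} (h1 : u ≤ s) (h2 : s ≤ u + R) (h3 : w s = 1) :
    pf w R s u ≤ (R : ℝ) ^ 2 := by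
  unfold pf
  rw [h3]
  have h4 : (0 : ℝ) ≤ (s : ℝ) - u := by
    have : (u : ℝ) ≤ s := by exact_mod_cast h1
    linarith
  have h5 : (s : ℝ) - u ≤ R := by
    have : (s : ℝ) ≤ u + R := by exact_mod_cast h2
    linarith
  nlinarith

lemma pf_far {w : ℤ → ℝ} {R : ℕ} (hw1 : ∀ t, w t ≤ 1) {t u : ℤ}
    (h : ¬ |u - t| ≤ R) : (R : ℝ) ^ 2 < pf w R t u := by
  by_contra hc
  push Not at hc
  exact h (pf_le_near hw1 hc)

lemma exists_own {w : ℤ → ℝ} {R : ℕ} (hw1 : ∀ t, w t ≤ 1)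
    (hm : ∀ u : ℤ, ∃ s, u ≤ s ∧ s ≤ u + R ∧ w s = 1) (u : ℤ) : ∃ t, Own w R t u := by
  obtain ⟨s, hs1, hs2, hs3⟩ := hm u
  have hne : (Finset.Icc (u - R) (u + R)).Nonempty := ⟨u, by simp⟩
  obtain ⟨t, ht, hmin⟩ := Finset.exists_min_image (Finset.Icc (u - R) (u + R))
    (fun t => pf w R t u) hne
  have hsm : s ∈ Finset.Icc (u - R) (u + R) := by
    rw [Finset.mem_Icc]
    constructor <;> omega
  have h1 : pf w R t u ≤ (R : ℝ) ^ 2 := (hmin s hsm).trans (pf_marker hs1 hs2 hs3)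
  refine ⟨t, fun s' => ?_⟩
  by_cases hs' : |u - s'| ≤ R
  · apply hmin
    rw [Finset.mem_Icc]
    rw [abs_le] at hs'
    constructor <;> omega
  · exact h1.trans (pf_far hw1 hs').le

lemma own_le {w : ℤ → ℝ} {R : ℕ}
    (hm : ∀ u : ℤ, ∃ s, u ≤ s ∧ s ≤ u + R ∧ w s = 1) {t u : ℤ} (h : Own w R t u) :
    pf w R t u ≤ (R : ℝ) ^ 2 := by
  obtain ⟨s, hs1, hs2, hs3⟩ := hm u
  exact (h s).trans (pf_marker hs1 hs2 hs3)

/-- The difference of two power functions is affine. -/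
lemma pf_sub (w : ℤ → ℝ) (R : ℕ) (s t u v : ℤ) :
    pf w R s u - pf w R t u = pf w R s v - pf w R t v + 2 * ((t : ℝ) - s) * ((u : ℝ) - v) := by
  unfold pf
  ring

lemma own_strict {w : ℤ → ℝ} {R : ℕ} {t u₁ u₂ u : ℤ} (h1 : Own w R t u₁) (h2 : Own w R t u₂)
    (hu1 : u₁ < u) (hu2 : u < u₂) (s : ℤ) (hs : s ≠ t) : pf w R t u + 1 ≤ pf w R s u := by
  rcases lt_or_gt_of_ne hs with hlt | hgt
  · have e := pf_sub w R s t u u₁
    have e1 : (1 : ℝ) ≤ (t : ℝ) - s := by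
      have : s + 1 ≤ t := hlt
      have : (s : ℝ) + 1 ≤ t := by exact_mod_cast this
      linarith
    have e2 : (1 : ℝ) ≤ (u : ℝ) - u₁ := by
      have : u₁ + 1 ≤ u := hu1
      have : (u₁ : ℝ) + 1 ≤ u := by exact_mod_cast this
      linarith
    have e3 := h1 s
    nlinarith
  · have e := pf_sub w R s t u u₂
    have e1 : (1 : ℝ) ≤ (s : ℝ) - t := by
      have : t + 1 ≤ s := hgt
      have : (t : ℝ) + 1 ≤ s := by exact_mod_cast this
      linarith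
    have e2 : (1 : ℝ) ≤ (u₂ : ℝ) - u := by
      have : u + 1 ≤ u₂ := hu2
      have : (u : ℝ) + 1 ≤ u₂ := by exact_mod_cast this
      linarith
    have e3 := h2 s
    nlinarith

lemma own_convex {w : ℤ → ℝ} {R : ℕ} {t u₁ u₂ u : ℤ} (h1 : Own w R t u₁) (h2 : Own w R t u₂)
    (hu1 : u₁ ≤ u) (hu2 : u ≤ u₂) : Own w R t u := by
  rcases eq_or_lt_of_le hu1 with h | h
  · rw [← h]; exact h1
  rcases eq_or_lt_of_le hu2 with h' | h'
  · rw [h']; exact h2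
  intro s
  by_cases hs : s = t
  · rw [hs]
  · linarith [own_strict h1 h2 h h' s hs]

/-- A set of integers with pairwise distances less than `ℓ` has at most `ℓ` elements. -/
lemma card_le_of_dist {ℓ : ℕ} (A : Finset ℕ) (h : ∀ a ∈ A, ∀ b ∈ A, b < a + ℓ) : A.card ≤ ℓ := by
  rcases A.eq_empty_or_nonempty with rfl | hne
  · simp
  · have hsub : A ⊆ Finset.Ico (A.min' hne) (A.min' hne + ℓ) := by
      intro a ha
      rw [Finset.mem_Ico]
      exact ⟨Finset.min'_le A a ha, h _ (Finset.min'_mem A hne) a ha⟩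
    calc A.card ≤ (Finset.Ico (A.min' hne) (A.min' hne + ℓ)).card := Finset.card_le_card hsub
      _ = ℓ := by simp

/-- The number of `u < N` which are not deep inside of a cell. -/
lemma card_bad {w : ℤ → ℝ} {R L ℓ N : ℕ} (hw1 : ∀ t, w t ≤ 1)
    (hm : ∀ u : ℤ, ∃ s, u ≤ s ∧ s ≤ u + R ∧ w s = 1)
    (hgap : ∀ s t : ℤ, s ≠ t → |s - t| ≤ L → w s = 0 ∨ w t = 0)
    (S : Finset ℕ) (hS : ∀ u ∈ S, u < N)
    (hbad : ∀ u ∈ S, ∀ t : ℤ, Own w R t u → ¬ (Own w R t (u - ℓ) ∧ Own w R t (u + ℓ))) :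
    S.card ≤ 2 * ℓ * ((N + 2 * R) / (L + 1) + 1) := by
  classical
  choose τ hτ using fun u : ℤ => exists_own hw1 hm u
  -- the image of the owner in a small set
  let g : ℕ → ℕ := fun u => (τ u + R).toNat / (L + 1)
  have hnear : ∀ u : ℤ, |u - τ u| ≤ R := fun u => pf_le_near hw1 (own_le hm (hτ u))
  have hne : ∀ u : ℤ, w (τ u) ≠ 0 := fun u => pf_le_ne (own_le hm (hτ u))
  have hmaps : ∀ u ∈ S, g u ∈ Finset.range ((N + 2 * R) / (L + 1) + 1) := by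
    intro u hu
    rw [Finset.mem_range, Nat.lt_add_one_iff]
    apply Nat.div_le_div_right
    have h1 := hnear (u : ℤ)
    rw [abs_le] at h1
    have h2 := hS u hu
    omega
  have hfib : ∀ k ∈ Finset.range ((N + 2 * R) / (L + 1) + 1),
      (S.filter (fun u => g u = k)).card ≤ 2 * ℓ := by
    intro k _
    -- all owners in a fibre are equal
    have hsame : ∀ u ∈ S, ∀ v ∈ S, g u = k → g v = k → τ u = τ v := by
      intro u hu v hv h1 h2
      by_contra hne'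
      have h3 : |τ u - τ v| ≤ L := by
        have a1 := hnear (u : ℤ)
        have a2 := hnear (v : ℤ)
        rw [abs_le] at a1 a2
        have b1 : (τ u + R).toNat / (L + 1) = k := h1
        have b2 : (τ v + R).toNat / (L + 1) = k := h2
        have c1 : k * (L + 1) ≤ (τ u + R).toNat ∧ (τ u + R).toNat < (k + 1) * (L + 1) := by
          rw [← b1]
          constructor
          · exact Nat.div_mul_le_self _ _
          · exact (Nat.div_lt_iff_lt_mul (Nat.succ_pos L)).1 (Nat.lt_succ_self _)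
        have c2 : k * (L + 1) ≤ (τ v + R).toNat ∧ (τ v + R).toNat < (k + 1) * (L + 1) := by
          rw [← b2]
          constructor
          · exact Nat.div_mul_le_self _ _
          · exact (Nat.div_lt_iff_lt_mul (Nat.succ_pos L)).1 (Nat.lt_succ_self _)
        rw [abs_le]
        have c3 : (k + 1) * (L + 1) = k * (L + 1) + (L + 1) := by ring
        omega
      rcases hgap _ _ hne' h3 with h | h
      · exact hne _ h
      · exact hne _ h
    set F := S.filter (fun u => g u = k) with hF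
    let A := F.filter (fun u : ℕ => ¬ Own w R (τ u) ((u : ℤ) - ℓ))
    let B := F.filter (fun u : ℕ => ¬ Own w R (τ u) ((u : ℤ) + ℓ))
    have hsub : F ⊆ A ∪ B := by
      intro u hu
      have hu' := Finset.mem_filter.1 hu
      have := hbad u hu'.1 (τ u) (hτ u)
      rw [Finset.mem_union]
      by_cases h1 : Own w R (τ u) ((u : ℤ) - ℓ)
      · right
        exact Finset.mem_filter.2 ⟨hu, fun h2 => this ⟨h1, h2⟩⟩
      · left
        exact Finset.mem_filter.2 ⟨hu, h1⟩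
    have hA : A.card ≤ ℓ := by
      apply card_le_of_dist
      intro a ha b hb
      by_contra hc
      push Not at hc
      have ha1 := Finset.mem_filter.1 ha
      have hb1 := Finset.mem_filter.1 hb
      have ha2 := Finset.mem_filter.1 ha1.1
      have hb2 := Finset.mem_filter.1 hb1.1
      have e : τ a = τ b := hsame a ha2.1 b hb2.1 ha2.2 hb2.2
      apply hb1.2
      refine own_convex (u₁ := (a : ℤ)) (u₂ := (b : ℤ)) ?_ (hτ b) (by omega) (by omega)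
      rw [← e]; exact hτ a
    have hB : B.card ≤ ℓ := by
      apply card_le_of_dist
      intro a ha b hb
      by_contra hc
      push Not at hc
      have ha1 := Finset.mem_filter.1 ha
      have hb1 := Finset.mem_filter.1 hb
      have ha2 := Finset.mem_filter.1 ha1.1
      have hb2 := Finset.mem_filter.1 hb1.1
      have e : τ a = τ b := hsame a ha2.1 b hb2.1 ha2.2 hb2.2
      apply ha1.2
      refine own_convex (u₁ := (a : ℤ)) (u₂ := (b : ℤ)) (hτ a) ?_ (by omega) (by omega)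
      rw [e]; exact hτ b
    calc F.card ≤ (A ∪ B).card := Finset.card_le_card hsub
      _ ≤ A.card + B.card := Finset.card_union_le _ _
      _ ≤ 2 * ℓ := by omega
  calc S.card ≤ 2 * ℓ * (Finset.range ((N + 2 * R) / (L + 1) + 1)).card :=
        Finset.card_le_mul_card_image_of_maps_to hmaps (2 * ℓ) hfib
    _ = 2 * ℓ * ((N + 2 * R) / (L + 1) + 1) := by rw [Finset.card_range]

/-! ## The dynamical statement -/

section dyn

variable {X : Type} [TopologicalSpace X]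

/-- The weights along the orbit. -/
def wt (h : X ≃ₜ X) (Φ : X → ℝ) (x : X) (t : ℤ) : ℝ := Φ ((h ^ t) x)

lemma wt_shift (h : X ≃ₜ X) (Φ : X → ℝ) (x : X) (i t : ℤ) :
    wt h Φ ((h ^ i) x) t = wt h Φ x (t + i) := by
  unfold wt
  rw [zpow_add]
  rfl

lemma pf_shift (h : X ≃ₜ X) (Φ : X → ℝ) (R : ℕ) (x : X) (i t u : ℤ) :
    pf (wt h Φ ((h ^ i) x)) R t u = pf (wt h Φ x) R (t + i) (u + i) := by
  unfold pf
  rw [wt_shift]
  push_cast
  ring

lemma continuous_pf (h : X ≃ₜ X) {Φ : X → ℝ} (hΦ : Continuous Φ) (R : ℕ) (t u : ℤ) :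
    Continuous fun x => pf (wt h Φ x) R t u := by
  unfold pf wt
  have := (h ^ t).continuous
  fun_prop

/-- The closed set of full bases. -/
def Fset (h : X ≃ₜ X) (Φ : X → ℝ) (R ℓ : ℕ) : Set X :=
  ⋃ t ∈ (Finset.Icc (-(R : ℤ)) R).filter (fun t => (ℓ : ℤ) ∣ t),
    ⋂ u ∈ Finset.Ico (0 : ℤ) ℓ, ⋂ s : ℤ, ⋂ (_ : s ≠ t),
      {x | pf (wt h Φ x) R t u + 1 ≤ pf (wt h Φ x) R s u}

/-- The open set of bases. -/
def Oset (h : X ≃ₜ X) (Φ : X → ℝ) (R ℓ : ℕ) : Set X :=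
  ⋃ t : ℤ, ⋃ (_ : (ℓ : ℤ) ∣ t),
    ⋂ u ∈ Finset.Ico (0 : ℤ) ℓ, ⋂ s ∈ (Finset.Icc (u - R) (u + R)).filter (fun s => s ≠ t),
      {x | pf (wt h Φ x) R t u < pf (wt h Φ x) R s u}

lemma isClosed_Fset (h : X ≃ₜ X) {Φ : X → ℝ} (hΦ : Continuous Φ) (R ℓ : ℕ) :
    IsClosed (Fset h Φ R ℓ) := by
  unfold Fset
  apply isClosed_biUnion_finset
  intro t _
  refine isClosed_iInter fun u => isClosed_iInter fun _ => isClosed_iInter fun s =>
    isClosed_iInter fun _ => ?_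
  exact isClosed_le ((continuous_pf h hΦ R t u).add continuous_const) (continuous_pf h hΦ R s u)

lemma isOpen_Oset (h : X ≃ₜ X) {Φ : X → ℝ} (hΦ : Continuous Φ) (R ℓ : ℕ) :
    IsOpen (Oset h Φ R ℓ) := by
  unfold Oset
  refine isOpen_iUnion fun t => isOpen_iUnion fun _ => ?_
  refine isOpen_biInter_finset fun u _ => isOpen_biInter_finset fun s _ => ?_
  exact isOpen_lt (continuous_pf h hΦ R t u) (continuous_pf h hΦ R s u)

lemma mem_Fset {h : X ≃ₜ X} {Φ : X → ℝ} {R ℓ : ℕ} {x : X} :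
    x ∈ Fset h Φ R ℓ ↔ ∃ t : ℤ, |t| ≤ R ∧ (ℓ : ℤ) ∣ t ∧ ∀ u : ℤ, 0 ≤ u → u < ℓ →
      ∀ s : ℤ, s ≠ t → pf (wt h Φ x) R t u + 1 ≤ pf (wt h Φ x) R s u := by
  simp only [Fset, Set.mem_iUnion, Set.mem_iInter, Finset.mem_filter, Finset.mem_Icc,
    Finset.mem_Ico, Set.mem_ofPred_eq, abs_le, exists_prop]
  constructor
  · rintro ⟨t, ⟨h1, h2⟩, h3⟩
    exact ⟨t, h1, h2, fun u h4 h5 s hs => h3 u ⟨h4, h5⟩ s hs⟩
  · rintro ⟨t, h1, h2, h3⟩
    exact ⟨t, ⟨h1, h2⟩, fun u h4 s hs => h3 u h4.1 h4.2 s hs⟩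

lemma mem_Oset {h : X ≃ₜ X} {Φ : X → ℝ} {R ℓ : ℕ} {x : X} :
    x ∈ Oset h Φ R ℓ ↔ ∃ t : ℤ, (ℓ : ℤ) ∣ t ∧ ∀ u : ℤ, 0 ≤ u → u < ℓ →
      ∀ s : ℤ, |u - s| ≤ R → s ≠ t → pf (wt h Φ x) R t u < pf (wt h Φ x) R s u := by
  simp only [Oset, Set.mem_iUnion, Set.mem_iInter, Finset.mem_filter, Finset.mem_Icc,
    Finset.mem_Ico, Set.mem_ofPred_eq, abs_le, exists_prop]
  constructor
  · rintro ⟨t, h2, h3⟩
    exact ⟨t, h2, fun u h4 h5 s hs hst => h3 u ⟨h4, h5⟩ s ⟨⟨by omega, by omega⟩, hst⟩⟩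
  · rintro ⟨t, h2, h3⟩
    exact ⟨t, h2, fun u h4 s hs => h3 u h4.1 h4.2 s ⟨by omega, by omega⟩ hs.2⟩

lemma Fset_subset_Oset (h : X ≃ₜ X) (Φ : X → ℝ) (R ℓ : ℕ) : Fset h Φ R ℓ ⊆ Oset h Φ R ℓ := by
  intro x hx
  rw [mem_Fset] at hx
  obtain ⟨t, -, h2, h3⟩ := hx
  rw [mem_Oset]
  exact ⟨t, h2, fun u h4 h5 s _ hst => by linarith [h3 u h4 h5 s hst]⟩

/-- Two bases are at distance at least `ℓ`. -/
lemma Oset_disj {h : X ≃ₜ X} {Φ : X → ℝ} {R ℓ : ℕ} (hΦ1 : ∀ x, Φ x ≤ 1)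
    (hm : ∀ x : X, ∃ i : ℕ, i ≤ R ∧ Φ ((h ^ (i : ℤ)) x) = 1) {x : X} {i : ℤ} (hi : i ≠ 0)
    (hil : |i| < (ℓ : ℤ)) (h1 : x ∈ Oset h Φ R ℓ) (h2 : (h ^ i) x ∈ Oset h Φ R ℓ) : False := by
  rw [mem_Oset] at h1 h2
  obtain ⟨t, ht, h1⟩ := h1
  obtain ⟨t', ht', h2⟩ := h2
  rw [abs_lt] at hil
  have hw1 : ∀ s, wt h Φ x s ≤ 1 := fun s => hΦ1 _
  have hmark : ∀ u : ℤ, ∃ s, u ≤ s ∧ s ≤ u + R ∧ wt h Φ x s = 1 := by
    intro u
    obtain ⟨j, hj1, hj2⟩ := hm ((h ^ u) x)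
    refine ⟨u + j, by omega, by omega, ?_⟩
    have := wt_shift h Φ x u j
    unfold wt at this ⊢
    rw [add_comm u, ← this]
    exact hj2
  -- the common time
  obtain ⟨v, hv0, hv1, hv2, hv3⟩ : ∃ v : ℤ, 0 ≤ v ∧ v < ℓ ∧ 0 ≤ v - i ∧ v - i < ℓ := by
    rcases le_or_gt 0 i with h | h
    · exact ⟨i, by omega, by omega, by omega, by omega⟩
    · exact ⟨0, by omega, by omega, by omega, by omega⟩
  have k1 : ∀ s : ℤ, |v - s| ≤ R → s ≠ t → pf (wt h Φ x) R t v < pf (wt h Φ x) R s v :=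
    fun s hs hst => h1 v hv0 hv1 s hs hst
  have k2 : ∀ s : ℤ, |v - s| ≤ R → s ≠ t' + i →
      pf (wt h Φ x) R (t' + i) v < pf (wt h Φ x) R s v := by
    intro s hs hst
    have := h2 (v - i) hv2 hv3 (s - i) (by rw [show v - i - (s - i) = v - s by ring]; exact hs)
      (fun e => hst (by omega))
    rw [pf_shift, pf_shift] at this
    simpa using this
  have near : ∀ t₀ : ℤ, (∀ s : ℤ, |v - s| ≤ R → s ≠ t₀ →
      pf (wt h Φ x) R t₀ v < pf (wt h Φ x) R s v) → |v - t₀| ≤ R := by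
    intro t₀ ht₀
    obtain ⟨s, hs1, hs2, hs3⟩ := hmark v
    by_cases e : s = t₀
    · rw [← e, abs_le]
      constructor <;> omega
    · apply pf_le_near hw1
      have hs4 : |v - s| ≤ R := by rw [abs_le]; constructor <;> omega
      exact (ht₀ s hs4 e).le.trans (pf_marker hs1 hs2 hs3)
  have e : t = t' + i := by
    by_contra hne
    have a1 := k1 (t' + i) (near _ k2) (Ne.symm hne)
    have a2 := k2 t (near _ k1) hne
    linarith
  have hdvd : (ℓ : ℤ) ∣ i := by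
    have : i = t - t' := by omega
    rw [this]
    exact dvd_sub ht ht'
  obtain ⟨c, hc⟩ := hdvd
  have hc0 : c ≠ 0 := by
    rintro rfl
    exact hi (by rw [hc]; ring)
  have : (ℓ : ℤ) ≤ |i| := by
    rw [hc, abs_mul]
    have c1 : 1 ≤ |c| := Int.one_le_abs hc0
    have c2 : |(ℓ : ℤ)| = ℓ := abs_of_nonneg (by positivity)
    rw [c2]
    nlinarith [show (0 : ℤ) ≤ ℓ by positivity]
  have : |i| < (ℓ : ℤ) := abs_lt.2 hil
  omega

end dyn

/-- Module URP. -/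
theorem urp : URPStmt := by
  classical
  intro X _ _ _ h hM ℓ ε hℓ hε
  obtain ⟨L, hL⟩ : ∃ L : ℕ, 4 * (ℓ : ℝ) / ε ≤ L := exists_nat_ge _
  obtain ⟨R, Φ, hΦc, hΦ01, hΦgap, hΦm⟩ := hM L
  have hΦ1 : ∀ x, Φ x ≤ 1 := fun x => (hΦ01 x).2
  have hdisj : Disjoint (Oset h Φ R ℓ)ᶜ (Fset h Φ R ℓ) :=
    Set.disjoint_left.2 fun x hx hx' => hx (Fset_subset_Oset h Φ R ℓ hx')
  obtain ⟨β, hβ0, hβ1, hβ⟩ := exists_continuous_zero_one_of_isClosed
    (isOpen_Oset h hΦc R ℓ).isClosed_compl (isClosed_Fset h hΦc R ℓ) hdisj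
  have hmem : ∀ x, β x ≠ 0 → x ∈ Oset h Φ R ℓ := by
    intro x hx
    by_contra hc
    exact hx (hβ0 hc)
  refine ⟨β, β.continuous, fun x => ⟨(hβ x).1, (hβ x).2⟩, ?_, ?_⟩
  · intro x i hi hil
    by_contra hc
    push Not at hc
    exact Oset_disj hΦ1 hΦm hi hil (hmem _ hc.1) (hmem _ hc.2)
  -- counting
  obtain ⟨N₁, hN₁⟩ : ∃ N₁ : ℕ, 2 / ε * (2 * ℓ * (2 * R + 1)) ≤ N₁ := exists_nat_ge _
  refine ⟨N₁, fun N hN x => ?_⟩
  set S : Set ℕ := {u : ℕ | u < N ∧ ¬ ∃ i : ℕ, i < ℓ ∧ β ((h ^ ((u : ℤ) - i)) x) = 1} with hSdef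
  have hSfin : S.Finite := (Set.finite_lt_nat N).subset fun u hu => hu.1
  have hcard : S.ncard = hSfin.toFinset.card := Set.ncard_eq_toFinset_card S hSfin
  have hw1 : ∀ s, wt h Φ x s ≤ 1 := fun s => hΦ1 _
  have hmark : ∀ u : ℤ, ∃ s, u ≤ s ∧ s ≤ u + R ∧ wt h Φ x s = 1 := by
    intro u
    obtain ⟨j, hj1, hj2⟩ := hΦm ((h ^ u) x)
    refine ⟨u + j, by omega, by omega, ?_⟩
    have := wt_shift h Φ x u j
    unfold wt at this ⊢
    rw [add_comm u, ← this]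
    exact hj2
  have hgap : ∀ s t : ℤ, s ≠ t → |s - t| ≤ L → wt h Φ x s = 0 ∨ wt h Φ x t = 0 := by
    intro s t hst hle
    have := hΦgap ((h ^ s) x) (t - s) (by omega) (by rw [abs_sub_comm]; exact hle)
    have e := wt_shift h Φ x s (t - s)
    unfold wt at e ⊢
    rw [e, show t - s + s = t by ring] at this
    exact this
  have hbad : ∀ u ∈ hSfin.toFinset, ∀ t : ℤ, Own (wt h Φ x) R t u →
      ¬ (Own (wt h Φ x) R t ((u : ℤ) - ℓ) ∧ Own (wt h Φ x) R t ((u : ℤ) + ℓ)) := by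
    intro u hu t _ hc
    rw [Set.Finite.mem_toFinset] at hu
    apply hu.2
    have hℓ0 : (0 : ℤ) < ℓ := by exact_mod_cast hℓ
    -- the base of the block
    set r : ℤ := ((u : ℤ) - t) % ℓ with hr
    have hr0 : 0 ≤ r := Int.emod_nonneg _ (by omega)
    have hrℓ : r < ℓ := Int.emod_lt_of_pos _ hℓ0
    refine ⟨r.toNat, by omega, ?_⟩
    rw [Int.toNat_of_nonneg hr0]
    apply hβ1
    rw [mem_Fset]
    have hdvd : (ℓ : ℤ) ∣ t - (u - r) := by
      have h1 : ((ℓ : ℤ)) ∣ ((u : ℤ) - t) - r := Int.dvd_self_sub_emod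
      have h2 : t - (u - r) = -(((u : ℤ) - t) - r) := by ring
      rw [h2]
      exact (dvd_neg).2 h1
    refine ⟨t - (u - r), ?_, hdvd, ?_⟩
    · have hown : Own (wt h Φ x) R t (u - r) :=
        own_convex hc.1 hc.2 (by omega) (by omega)
      have := pf_le_near hw1 (own_le hmark hown)
      rw [abs_sub_comm]
      exact this
    · intro v hv0 hvℓ s hs
      rw [pf_shift, pf_shift]
      have := own_strict hc.1 hc.2 (u := v + (u - r)) (by omega) (by omega) (s + (u - r))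
        (by omega)
      simpa using this
  have hmain := card_bad hw1 hmark hgap hSfin.toFinset
    (fun u hu => ((Set.Finite.mem_toFinset hSfin).1 hu).1) (ℓ := ℓ) hbad
  rw [hcard]
  have h1 : ((hSfin.toFinset.card : ℕ) : ℝ) ≤ 2 * ℓ * ((N + 2 * R) / (L + 1) + 1) := by
    have a1 : ((hSfin.toFinset.card : ℕ) : ℝ) ≤
        ((2 * ℓ * ((N + 2 * R) / (L + 1) + 1) : ℕ) : ℝ) := by exact_mod_cast hmain
    refine a1.trans ?_
    push_cast
    have a2 : (((N + 2 * R) / (L + 1) : ℕ) : ℝ) ≤ ((N + 2 * R : ℕ) : ℝ) / ((L + 1 : ℕ) : ℝ) :=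
      Nat.cast_div_le
    push_cast at a2
    have a3 : (0 : ℝ) ≤ 2 * ℓ := by positivity
    exact mul_le_mul_of_nonneg_left (by linarith) a3
  have hLpos : (0 : ℝ) < (L : ℝ) + 1 := by positivity
  have h2 : 2 * (ℓ : ℝ) * (N / (L + 1)) ≤ ε / 2 * N := by
    have b1 : 4 * (ℓ : ℝ) ≤ ε * (L + 1) := by
      have : 4 * (ℓ : ℝ) ≤ L * ε := by
        rwa [div_le_iff₀ hε] at hL
      nlinarith
    rw [← mul_div_assoc, div_le_iff₀ hLpos]
    have b2 : (0 : ℝ) ≤ N := Nat.cast_nonneg N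
    nlinarith
  have h3 : 2 * (ℓ : ℝ) * (2 * R / (L + 1) + 1) ≤ ε / 2 * N := by
    have b1 : (2 : ℝ) * R / (L + 1) ≤ 2 * R := by
      rw [div_le_iff₀ hLpos]
      have : (0 : ℝ) ≤ (R : ℝ) * L := by positivity
      nlinarith
    have b2 : 2 / ε * (2 * ℓ * (2 * R + 1)) ≤ (N : ℝ) := hN₁.trans (by exact_mod_cast hN)
    have b3 : 2 * (ℓ : ℝ) * (2 * R + 1) ≤ ε / 2 * N := by
      have : 2 / ε * (2 * ℓ * (2 * R + 1)) * (ε / 2) ≤ (N : ℝ) * (ε / 2) :=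
        mul_le_mul_of_nonneg_right b2 (by positivity)
      have e : 2 / ε * (2 * (ℓ : ℝ) * (2 * R + 1)) * (ε / 2) = 2 * ℓ * (2 * R + 1) := by
        field_simp
      rw [e] at this
      linarith
    refine le_trans ?_ b3
    exact mul_le_mul_of_nonneg_left (by linarith) (by positivity)
  have h4 : 2 * (ℓ : ℝ) * ((N + 2 * R) / (L + 1) + 1) =
      2 * (ℓ : ℝ) * (N / (L + 1)) + 2 * (ℓ : ℝ) * (2 * R / (L + 1) + 1) := by
    field_simp
    ring
  linarith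

end Pool.Agent.H68.RC
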